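import Mathlib
set_option autoImplicit false

/-!
Spines of forests with a path decomposition: in every component a path which meets every bag that
meets the component.
-/

namespace Pool.Agent.Y573.NC

variable {V : Type}

/-- The graph `H` restricted to the edges inside `S`. -/
def restr (H : SimpleGraph V) (S : Set V) : SimpleGraph V where
  Adj a b := H.Adj a b ∧ a ∈ S ∧ b ∈ S
  symm := ⟨fun _ _ h => ⟨h.1.symm, h.2.2, h.2.1⟩⟩
  loopless := ⟨fun _ h => H.loopless.irrefl _ h.1⟩

/-- A system of spines: `S` meets every component of `H` in a path, with vertices numbered by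
`idx`. -/
structure Spine (H : SimpleGraph V) (S : Set V) (idx : V → ℕ) : Prop where
  inj : ∀ x y, x ∈ S → y ∈ S → H.Reachable x y → idx x = idx y → x = y
  adj : ∀ x y, x ∈ S → y ∈ S → H.Adj x y → idx x = idx y + 1 ∨ idx y = idx x + 1
  conn : ∀ x y, x ∈ S → y ∈ S → H.Reachable x y → (restr H S).Reachable x y

/-- Uniqueness of the attaching edge. -/
theorem Spine.unique {H : SimpleGraph V} {S : Set V} {idx : V → ℕ} (hs : Spine H S idx)
    (hac : H.IsAcyclic) {z1 z2 s1 s2 : V} (hz1 : z1 ∉ S) (hz2 : z2 ∉ S) (h1 : s1 ∈ S)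
    (h2 : s2 ∈ S) (hz : (restr H Sᶜ).Reachable z1 z2) (ha1 : H.Adj z1 s1) (ha2 : H.Adj z2 s2) :
    z1 = z2 ∧ s1 = s2 := by
  by_contra hne
  have hb := (SimpleGraph.isAcyclic_iff_forall_adj_isBridge.mp hac) ha1
  rw [SimpleGraph.isBridge_iff] at hb
  apply hb
  set H' := H.deleteEdges {s(z1, s1)} with hH'
  have e1 : (restr H Sᶜ) ≤ H' := by
    intro a b hab
    rw [hH', SimpleGraph.deleteEdges_adj]
    refine ⟨hab.1, ?_⟩
    rw [Set.mem_singleton_iff, Sym2.eq_iff]
    rintro (⟨rfl, rfl⟩ | ⟨rfl, rfl⟩)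
    · exact hab.2.2 h1
    · exact hab.2.1 h1
  have e2 : (restr H S) ≤ H' := by
    intro a b hab
    rw [hH', SimpleGraph.deleteEdges_adj]
    refine ⟨hab.1, ?_⟩
    rw [Set.mem_singleton_iff, Sym2.eq_iff]
    rintro (⟨rfl, rfl⟩ | ⟨rfl, rfl⟩)
    · exact hz1 hab.2.1
    · exact hz1 hab.2.2
  have e3 : (restr H Sᶜ) ≤ H := fun a b hab => hab.1
  have hr : H.Reachable s1 s2 :=
    ha1.symm.reachable.trans ((hz.mono e3).trans ha2.reachable)
  have c1 : H'.Reachable z1 z2 := hz.mono e1
  have c2 : H'.Reachable s1 s2 := (hs.conn s1 s2 h1 h2 hr).mono e2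
  have c3 : H'.Adj z2 s2 := by
    rw [hH', SimpleGraph.deleteEdges_adj]
    refine ⟨ha2, ?_⟩
    rw [Set.mem_singleton_iff, Sym2.eq_iff]
    rintro (⟨h3, h4⟩ | ⟨h3, h4⟩)
    · exact hne ⟨h3.symm, h4.symm⟩
    · exact hz1 (h4 ▸ h2)
  exact c1.trans (c3.reachable.trans c2.symm)

/-- Existence of a system of spines which meets every bag. -/
theorem exists_spineSet [Finite V] (H : SimpleGraph V) (hac : H.IsAcyclic) (B : ℕ → Finset V)
    (hB1 : ∀ v, ∃ i, v ∈ B i) (hB2 : ∀ u v, H.Adj u v → ∃ i, u ∈ B i ∧ v ∈ B i)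
    (hB3 : ∀ (v : V) (i j k : ℕ), i ≤ j → j ≤ k → v ∈ B i → v ∈ B k → v ∈ B j) :
    ∃ (S : Set V) (idx : V → ℕ), Spine H S idx ∧ (∀ v, idx v ≤ Nat.card V) ∧
      ∀ i v, v ∈ B i → ∃ s ∈ S, s ∈ B i ∧ H.Reachable s v := by
  classical
  -- leftmost and rightmost vertices of the components
  have hX : ∀ K : H.ConnectedComponent, ∃ x : V, H.connectedComponentMk x = K ∧
      ∀ v, H.connectedComponentMk v = K → ∀ i, v ∈ B i → ∃ j, j ≤ i ∧ x ∈ B j := by
    intro K
    obtain ⟨v0, hv0⟩ := K.exists_rep
    haveI : Nonempty {v : V // H.connectedComponentMk v = K} := ⟨⟨v0, hv0⟩⟩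
    obtain ⟨⟨x, hx⟩, hmin⟩ := Finite.exists_min
      (fun v : {v : V // H.connectedComponentMk v = K} => Nat.find (hB1 v.1))
    refine ⟨x, hx, ?_⟩
    intro v hv i hi
    refine ⟨Nat.find (hB1 x), ?_, Nat.find_spec (hB1 x)⟩
    exact (hmin ⟨v, hv⟩).trans (Nat.find_min' _ hi)
  have hY : ∀ K : H.ConnectedComponent, ∃ y : V, H.connectedComponentMk y = K ∧
      ∀ v, H.connectedComponentMk v = K → ∀ i, v ∈ B i → ∃ j, i ≤ j ∧ y ∈ B j := by
    intro K
    obtain ⟨v0, hv0⟩ := K.exists_rep
    by_cases hub : ∃ y, H.connectedComponentMk y = K ∧ ∀ i, ∃ j, i ≤ j ∧ y ∈ B j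
    · obtain ⟨y, hy1, hy2⟩ := hub
      exact ⟨y, hy1, fun v _ i _ => hy2 i⟩
    · push Not at hub
      haveI : Nonempty {v : V // H.connectedComponentMk v = K} := ⟨⟨v0, hv0⟩⟩
      choose bd hbd using hub
      have hlast : ∀ v : {v : V // H.connectedComponentMk v = K},
          ∃ m, v.1 ∈ B m ∧ ∀ j, v.1 ∈ B j → j ≤ m := by
        intro v
        obtain ⟨i, hi⟩ := hB1 v.1
        refine ⟨Nat.findGreatest (fun j => v.1 ∈ B j) (bd v.1 v.2), ?_, ?_⟩
        · refine Nat.findGreatest_spec (P := fun j => v.1 ∈ B j) (m := i) ?_ hi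
          by_contra hc
          exact hbd v.1 v.2 i (by omega) hi
        · intro j hj
          refine Nat.le_findGreatest ?_ hj
          by_contra hc
          exact hbd v.1 v.2 j (by omega) hj
      choose la hla using hlast
      obtain ⟨⟨y, hy⟩, hmax⟩ := Finite.exists_max la
      refine ⟨y, hy, ?_⟩
      intro v hv i hi
      exact ⟨la ⟨y, hy⟩, ((hla ⟨v, hv⟩).2 i hi).trans (hmax ⟨v, hv⟩), (hla ⟨y, hy⟩).1⟩
  choose X hX1 hX2 using hX
  choose Y hY1 hY2 using hY
  have hP : ∀ K : H.ConnectedComponent, ∃ p : H.Walk (X K) (Y K), p.IsPath := by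
    intro K
    have hr : H.Reachable (X K) (Y K) := by
      rw [← SimpleGraph.ConnectedComponent.eq, hX1, hY1]
    obtain ⟨p⟩ := hr
    exact ⟨p.bypass, p.bypass_isPath⟩
  choose P hP using hP
  have hcomp : ∀ K x, x ∈ (P K).support → H.connectedComponentMk x = K := by
    intro K x hx
    have : H.Reachable (X K) x := ⟨(P K).takeUntil x hx⟩
    rw [← SimpleGraph.ConnectedComponent.eq, hX1] at this
    exact this.symm
  -- the index
  set S : Set V := {x | x ∈ (P (H.connectedComponentMk x)).support} with hS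
  have hpos : ∀ x : V, ∃ i, x ∈ S →
      i ≤ (P (H.connectedComponentMk x)).length ∧ (P (H.connectedComponentMk x)).getVert i = x := by
    intro x
    by_cases hx : x ∈ S
    · obtain ⟨n, hn1, hn2⟩ := SimpleGraph.Walk.mem_support_iff_exists_getVert.mp hx
      exact ⟨n, fun _ => ⟨hn2, hn1⟩⟩
    · exact ⟨0, fun h => absurd h hx⟩
  choose ix hix using hpos
  refine ⟨S, fun v => if v ∈ S then ix v else 0, ⟨?_, ?_, ?_⟩, ?_, ?_⟩
  · intro x y hx hy hxy he
    simp only [if_pos hx, if_pos hy] at he
    have hc : H.connectedComponentMk x = H.connectedComponentMk y :=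
      SimpleGraph.ConnectedComponent.eq.mpr hxy
    rw [← (hix x hx).2, ← (hix y hy).2, he, hc]
  · intro x y hx hy hxy
    simp only [if_pos hx, if_pos hy]
    have hc : H.connectedComponentMk x = H.connectedComponentMk y :=
      SimpleGraph.ConnectedComponent.eq.mpr hxy.reachable
    have key : ∀ (K : H.ConnectedComponent) (a b : V) (i j : ℕ), i < j → j ≤ (P K).length →
        (P K).getVert i = a → (P K).getVert j = b → H.Adj a b → j = i + 1 := by
      intro K a b i j hij hj ha hb hab
      subst ha hb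
      have hmem : (P K).getVert j ∈ ((P K).drop i).support := by
        have := ((P K).drop i).getVert_mem_support (j - i)
        rwa [SimpleGraph.Walk.drop_getVert, show i + (j - i) = j by omega] at this
      have hs := hac.eq_snd_of_adj_start ((hP K).drop i) hab hmem
      have hs' : (P K).getVert j = (P K).getVert (i + 1) := by
        rw [hs]
        unfold SimpleGraph.Walk.snd
        rw [SimpleGraph.Walk.drop_getVert]
      exact (hP K).getVert_injOn (by simpa using hj) (by simp; omega) hs'
    have hx' := hix x hx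
    have hy' := hix y hy
    rw [hc] at hx'
    rcases lt_trichotomy (ix x) (ix y) with h | h | h
    · right
      exact key _ x y _ _ h hy'.1 hx'.2 hy'.2 hxy
    · exfalso
      rw [h, hy'.2] at hx'
      exact hxy.ne hx'.2.symm
    · left
      exact key _ y x _ _ h hx'.1 hy'.2 hx'.2 hxy.symm
  · intro x y hx hy hxy
    have hc : H.connectedComponentMk x = H.connectedComponentMk y :=
      SimpleGraph.ConnectedComponent.eq.mpr hxy
    have hin : ∀ (K : H.ConnectedComponent) (i : ℕ), (P K).getVert i ∈ S := by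
      intro K i
      have h1 : (P K).getVert i ∈ (P K).support := (P K).getVert_mem_support i
      have h2 := hcomp K _ h1
      rw [hS, Set.mem_setOf_eq, h2]
      exact h1
    have hr : ∀ (K : H.ConnectedComponent) (i : ℕ), i ≤ (P K).length →
        (restr H S).Reachable (X K) ((P K).getVert i) := by
      intro K i
      induction i with
      | zero => intro _; rw [SimpleGraph.Walk.getVert_zero]
      | succ i ih =>
        intro hi
        refine (ih (by omega)).trans (SimpleGraph.Adj.reachable ?_)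
        exact ⟨(P K).adj_getVert_succ (by omega), hin K i, hin K (i + 1)⟩
    have h1 := hr (H.connectedComponentMk x) (ix x) (hix x hx).1
    have h2 := hr (H.connectedComponentMk y) (ix y) (hix y hy).1
    rw [(hix x hx).2] at h1
    rw [(hix y hy).2, ← hc] at h2
    exact h1.symm.trans h2
  · intro v
    by_cases hv : v ∈ S
    · simp only [if_pos hv]
      haveI : Fintype V := Fintype.ofFinite V
      have := (hP (H.connectedComponentMk v)).length_lt
      have h2 := (hix v hv).1
      rw [Nat.card_eq_fintype_card]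
      omega
    · simp only [if_neg hv]; omega
  · intro i v hv
    set K := H.connectedComponentMk v with hK
    by_contra hcon
    push Not at hcon
    have hno : ∀ n, (P K).getVert n ∉ B i := by
      intro n hn
      have h1 : (P K).getVert n ∈ (P K).support := (P K).getVert_mem_support n
      have h2 := hcomp K _ h1
      have h3 : (P K).getVert n ∈ S := by
        rw [hS, Set.mem_setOf_eq, h2]; exact h1
      refine hcon _ h3 hn ?_
      rw [← SimpleGraph.ConnectedComponent.eq, h2]
    have hleft : ∀ n, n ≤ (P K).length → ∀ j, (P K).getVert n ∈ B j → j < i := by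
      intro n
      induction n with
      | zero =>
        intro _ j hj
        by_contra hc
        obtain ⟨j', hj'1, hj'2⟩ := hX2 K v rfl i hv
        have h0 := hno 0
        rw [SimpleGraph.Walk.getVert_zero] at hj h0
        exact h0 (hB3 _ j' i j hj'1 (by omega) hj'2 hj)
      | succ n ih =>
        intro hn j hj
        by_contra hc
        obtain ⟨j', hj'1, hj'2⟩ := hB2 _ _ ((P K).adj_getVert_succ (i := n) (by omega))
        have h4 := ih (by omega) j' hj'1
        exact hno (n + 1) (hB3 _ j' i j (by omega) (by omega) hj'2 hj)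
    obtain ⟨j, hj1, hj2⟩ := hY2 K v rfl i hv
    have h5 := hleft (P K).length le_rfl j
    rw [SimpleGraph.Walk.getVert_length] at h5
    have := h5 hj2
    omega

end Pool.Agent.Y573.NC
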