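import Pool.Agent.Y573.NC.Spine
import Pool.Agent.Y573.NC.Struct
set_option autoImplicit false

/-!
The colouring of a forest with two levels of spines, from lists of size `64`.
-/

namespace Pool.Agent.Y573.NC

variable {V : Type}

/-- The vertex of `S` at which the component of `x` in the complement of `S` is attached. -/
noncomputable def anchor (G : SimpleGraph V) (S : Set V) (x : V) : V :=
  @Classical.epsilon V ⟨x⟩
    (fun s => s ∈ S ∧ ∃ z, z ∉ S ∧ (restr G Sᶜ).Reachable x z ∧ G.Adj z s)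

lemma anchor_congr (G : SimpleGraph V) (S : Set V) {x y : V} (h : (restr G Sᶜ).Reachable x y) :
    anchor G S x = anchor G S y := by
  unfold anchor
  congr 1
  funext s
  apply propext
  constructor
  · rintro ⟨h1, z, h2, h3, h4⟩
    exact ⟨h1, z, h2, h.symm.trans h3, h4⟩
  · rintro ⟨h1, z, h2, h3, h4⟩
    exact ⟨h1, z, h2, h.trans h3, h4⟩

lemma anchor_adj {G : SimpleGraph V} {S : Set V} {idx : V → ℕ} (hs : Spine G S idx)
    (hac : G.IsAcyclic) {x y : V} (hx : x ∉ S) (hy : y ∈ S) (h : G.Adj x y) :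
    anchor G S x = y := by
  have hex : ∃ s, s ∈ S ∧ ∃ z, z ∉ S ∧ (restr G Sᶜ).Reachable x z ∧ G.Adj z s :=
    ⟨y, hy, x, hx, SimpleGraph.Reachable.refl _, h⟩
  have := @Classical.epsilon_spec_aux V ⟨x⟩
    (fun s => s ∈ S ∧ ∃ z, z ∉ S ∧ (restr G Sᶜ).Reachable x z ∧ G.Adj z s) hex
  obtain ⟨h1, z, h2, h3, h4⟩ := this
  exact (hs.unique hac h2 hx h1 hy h3.symm h4 h).2

/-- The words read on a spine `f` near the position `a`, in both directions. -/
def Wd (f : ℕ → ℕ) (a m j s : ℕ) : ℕ :=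
  if j % 2 = 0 then f (a + j / 2 - 4 * m + s) else f (a + j / 2 - 4 * m + (m - 1 - s))

/-- The properties of the colouring. -/
structure Good (G : SimpleGraph V) (S0 : Set V) (i0 : V → ℕ) (S1 : Set V) (i1 : V → ℕ)
    (c : V → ℕ) (N : ℕ) (f0 : G.ConnectedComponent → ℕ → ℕ)
    (f1 : (restr G S0ᶜ).ConnectedComponent → ℕ → ℕ) : Prop where
  b0 : ∀ x, i0 x < N
  b1 : ∀ x, i1 x < N
  c0 : ∀ x, x ∈ S0 → c x = f0 (G.connectedComponentMk x) (i0 x)
  c1 : ∀ x, x ∉ S0 → x ∈ S1 → c x = f1 ((restr G S0ᶜ).connectedComponentMk x) (i1 x)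
  r0 : ∀ κ, Robust N (f0 κ)
  r1 : ∀ κ, Robust N (f1 κ)
  av : ∀ x, Avoids (Wd (f0 (G.connectedComponentMk (anchor G S0 x))) (i0 (anchor G S0 x))) N
    (f1 ((restr G S0ᶜ).connectedComponentMk x))
  near : ∀ x, x ∉ S0 → ∀ j, j ≤ i0 (anchor G S0 x) + 10 → i0 (anchor G S0 x) ≤ j + 10 →
    c x ≠ f0 (G.connectedComponentMk (anchor G S0 x)) j
  leaf : ∀ x, x ∉ S0 → x ∉ S1 → ∀ z, z ∈ S1 → (restr G S0ᶜ).Adj x z →
    ∀ j, j ≤ i1 z + 1 → i1 z ≤ j + 1 → c x ≠ f1 ((restr G S0ᶜ).connectedComponentMk x) j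

theorem exists_good [Finite V] (G : SimpleGraph V) (hac : G.IsAcyclic) (S0 : Set V)
    (i0 : V → ℕ) (hs0 : Spine G S0 i0) (S1 : Set V) (i1 : V → ℕ)
    (hs1 : Spine (restr G S0ᶜ) S1 i1) (hb0 : ∀ x, i0 x ≤ Nat.card V)
    (hb1 : ∀ x, i1 x ≤ Nat.card V)
    (L : V → Finset ℕ) (hL : ∀ v, 64 ≤ (L v).card) :
    ∃ (c : V → ℕ) (N : ℕ) (f0 : G.ConnectedComponent → ℕ → ℕ)
      (f1 : (restr G S0ᶜ).ConnectedComponent → ℕ → ℕ),
      Good G S0 i0 S1 i1 c N f0 f1 ∧ ∀ v, c v ∈ L v := by
  classical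
  set N := Nat.card V + 1 with hN
  set H1 := restr G S0ᶜ with hH1
  have hac1 : H1.IsAcyclic := hac.anti (fun a b h => h.1)
  -- level 0
  let L0 : G.ConnectedComponent → ℕ → Finset ℕ := fun κ i =>
    if h : ∃ x, x ∈ S0 ∧ G.connectedComponentMk x = κ ∧ i0 x = i then L h.choose
    else Finset.range 43
  have hL0 : ∀ κ i, 43 ≤ (L0 κ i).card := by
    intro κ i
    simp only [L0]
    split_ifs with h
    · exact le_trans (by norm_num) (hL _)
    · simp
  have hL0' : ∀ x, x ∈ S0 → L0 (G.connectedComponentMk x) (i0 x) = L x := by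
    intro x hx
    have h : ∃ y, y ∈ S0 ∧ G.connectedComponentMk y = G.connectedComponentMk x ∧ i0 y = i0 x :=
      ⟨x, hx, rfl, rfl⟩
    simp only [L0]
    rw [dif_pos h]
    have := h.choose_spec
    congr 1
    exact hs0.inj _ _ this.1 hx (SimpleGraph.ConnectedComponent.eq.mp this.2.1) this.2.2
  have hf0 : ∀ κ, ∃ f : ℕ → ℕ, (∀ i, i < N → f i ∈ L0 κ i) ∧ Robust N f ∧
      Avoids (fun _ _ _ => 0) N f := fun κ => exists_spine (L0 κ) (hL0 κ) _ N
  choose f0 hf01 hf02 _ using hf0
  -- the colours near the anchor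
  let near : V → Finset ℕ := fun x =>
    (Finset.Icc (i0 (anchor G S0 x) - 10) (i0 (anchor G S0 x) + 10)).image
      (f0 (G.connectedComponentMk (anchor G S0 x)))
  have hnear : ∀ x, (near x).card ≤ 21 := by
    intro x
    refine Finset.card_image_le.trans ?_
    rw [Nat.card_Icc]; omega
  have hnear' : ∀ x j, j ≤ i0 (anchor G S0 x) + 10 → i0 (anchor G S0 x) ≤ j + 10 →
      f0 (G.connectedComponentMk (anchor G S0 x)) j ∈ near x := by
    intro x j h1 h2
    refine Finset.mem_image_of_mem _ ?_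
    rw [Finset.mem_Icc]; omega
  -- level 1
  let L1 : H1.ConnectedComponent → ℕ → Finset ℕ := fun κ i =>
    if h : ∃ x, x ∈ S1 ∧ H1.connectedComponentMk x = κ ∧ i1 x = i then
      L h.choose \ near h.choose
    else Finset.range 43
  have hL1 : ∀ κ i, 43 ≤ (L1 κ i).card := by
    intro κ i
    simp only [L1]
    split_ifs with h
    · have h1 := Finset.le_card_sdiff (near h.choose) (L h.choose)
      have h2 := hnear h.choose
      have h3 := hL h.choose
      omega
    · simp
  have hL1' : ∀ x, x ∈ S1 → L1 (H1.connectedComponentMk x) (i1 x) = L x \ near x := by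
    intro x hx
    have h : ∃ y, y ∈ S1 ∧ H1.connectedComponentMk y = H1.connectedComponentMk x ∧
        i1 y = i1 x := ⟨x, hx, rfl, rfl⟩
    simp only [L1]
    rw [dif_pos h]
    have := h.choose_spec
    have e : h.choose = x :=
      hs1.inj _ _ this.1 hx (SimpleGraph.ConnectedComponent.eq.mp this.2.1) this.2.2
    rw [e]
  have hf1 : ∀ κ : H1.ConnectedComponent, ∃ f : ℕ → ℕ, (∀ i, i < N → f i ∈ L1 κ i) ∧ Robust N f ∧
      Avoids (Wd (f0 (G.connectedComponentMk (anchor G S0 (Quot.out κ))))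
        (i0 (anchor G S0 (Quot.out κ)))) N f := fun κ => exists_spine (L1 κ) (hL1 κ) _ N
  choose f1 hf11 hf12 hf13 using hf1
  -- level 2
  let zz : V → V := fun x => if h : ∃ z, z ∈ S1 ∧ H1.Adj x z then h.choose else x
  have hzz : ∀ x z, x ∉ S1 → z ∈ S1 → H1.Adj x z → zz x = z := by
    intro x z hx hz hxz
    have h : ∃ z, z ∈ S1 ∧ H1.Adj x z := ⟨z, hz, hxz⟩
    simp only [zz]
    rw [dif_pos h]
    exact (hs1.unique hac1 hx hx h.choose_spec.1 hz (SimpleGraph.Reachable.refl _)
      h.choose_spec.2 hxz).2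
  let nl : V → Finset ℕ := fun x => (Finset.Icc (i1 (zz x) - 1) (i1 (zz x) + 1)).image
      (f1 (H1.connectedComponentMk x))
  have hnl : ∀ x, (nl x).card ≤ 3 := by
    intro x
    refine Finset.card_image_le.trans ?_
    rw [Nat.card_Icc]; omega
  have hc2 : ∀ x, ∃ y, y ∈ (L x \ near x) \ nl x := by
    intro x
    have h1 := Finset.le_card_sdiff (near x) (L x)
    have h2 := Finset.le_card_sdiff (nl x) (L x \ near x)
    have h3 := hnear x
    have h4 := hnl x
    have h5 := hL x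
    have : 0 < ((L x \ near x) \ nl x).card := by omega
    exact Finset.card_pos.mp this
  choose c2 hc2 using hc2
  refine ⟨fun x => if x ∈ S0 then f0 (G.connectedComponentMk x) (i0 x) else
    if x ∈ S1 then f1 (H1.connectedComponentMk x) (i1 x) else c2 x, N, f0, f1,
    ⟨fun x => by have := hb0 x; omega, fun x => by have := hb1 x; omega, ?_, ?_, hf02, hf12,
      ?_, ?_, ?_⟩, ?_⟩
  · intro x hx
    simp only [if_pos hx]
  · intro x hx hx1
    simp only [if_neg hx, if_pos hx1]
    rfl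
  · intro x
    have h := hf13 (H1.connectedComponentMk x)
    have e : H1.Reachable (Quot.out (H1.connectedComponentMk x)) x := by
      rw [← SimpleGraph.ConnectedComponent.eq]
      exact Quot.out_eq _
    rw [anchor_congr G S0 e] at h
    exact h
  · intro x hx j h1 h2
    simp only [if_neg hx]
    by_cases hx1 : x ∈ S1
    · simp only [if_pos hx1]
      have h3 := hf11 (H1.connectedComponentMk x) (i1 x) (by have := hb1 x; omega)
      rw [hL1' x hx1, Finset.mem_sdiff] at h3
      intro h4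
      rw [h4] at h3
      exact h3.2 (hnear' x j h1 h2)
    · simp only [if_neg hx1]
      have h3 := hc2 x
      rw [Finset.mem_sdiff, Finset.mem_sdiff] at h3
      intro h4
      rw [h4] at h3
      exact h3.1.2 (hnear' x j h1 h2)
  · intro x hx hx1 z hz hxz j h1 h2
    simp only [if_neg hx, if_neg hx1]
    have h3 := hc2 x
    rw [Finset.mem_sdiff] at h3
    intro h4
    apply h3.2
    rw [h4]
    refine Finset.mem_image_of_mem _ ?_
    rw [hzz x z hx1 hz hxz, Finset.mem_Icc]
    omega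
  · intro x
    by_cases hx : x ∈ S0
    · simp only [if_pos hx]
      have h3 := hf01 (G.connectedComponentMk x) (i0 x) (by have := hb0 x; omega)
      rw [hL0' x hx] at h3
      exact h3
    · simp only [if_neg hx]
      by_cases hx1 : x ∈ S1
      · simp only [if_pos hx1]
        have h3 := hf11 (H1.connectedComponentMk x) (i1 x) (by have := hb1 x; omega)
        rw [hL1' x hx1, Finset.mem_sdiff] at h3
        exact h3.1
      · simp only [if_neg hx1]
        have h3 := hc2 x
        rw [Finset.mem_sdiff, Finset.mem_sdiff] at h3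
        exact h3.1.1

end Pool.Agent.Y573.NC
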