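import Mathlib
set_option autoImplicit false

/-!
Counting argument (in the style of Rosenfeld) for words chosen from lists: if at every position
the numbers of forbidden continuations which determine the last `k` letters are small, then long
words without forbidden continuations exist.
-/

namespace Pool.Agent.Y573.NC

/-- Truncation of a word. -/
def trunc (m : ℕ) (f : ℕ → ℕ) : ℕ → ℕ := fun i => if i < m then f i else 0

lemma trunc_trunc {m n : ℕ} (h : m ≤ n) (f : ℕ → ℕ) : trunc m (trunc n f) = trunc m f := by
  funext i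
  unfold trunc
  by_cases h1 : i < m
  · rw [if_pos h1, if_pos h1, if_pos (by omega)]
  · rw [if_neg h1, if_neg h1]

/-- A forbidden continuation at position `n`. -/
def BadAt (b : ℕ → ℕ) (g : ℕ → ℕ → ℕ → (ℕ → ℕ) → ℕ → ℕ) (n : ℕ) (f : ℕ → ℕ) : Prop :=
  ∃ k, 1 ≤ k ∧ k ≤ n + 1 ∧ ∃ j, j < b k ∧
    ∀ s, s < k → f (n + 1 - k + s) = g n k j (trunc (n + 1 - k) f) s

open Classical in
/-- The good words of length `n`. -/
noncomputable def A (L : ℕ → Finset ℕ) (b : ℕ → ℕ) (g : ℕ → ℕ → ℕ → (ℕ → ℕ) → ℕ → ℕ) :
    ℕ → Finset (ℕ → ℕ)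
  | 0 => {fun _ => 0}
  | n + 1 => ((L n ×ˢ A L b g n).image (fun p => Function.update p.2 n p.1)).filter
      (fun f => ¬ BadAt b g n f)

section
variable (L : ℕ → Finset ℕ) (b : ℕ → ℕ) (g : ℕ → ℕ → ℕ → (ℕ → ℕ) → ℕ → ℕ)

lemma A_supp (n : ℕ) : ∀ f ∈ A L b g n, ∀ i, n ≤ i → f i = 0 := by
  classical
  induction n with
  | zero =>
    intro f hf i _
    simp only [A, Finset.mem_singleton] at hf
    subst hf; rfl
  | succ n ih =>
    intro f hf i hi
    simp only [A, Finset.mem_filter, Finset.mem_image, Finset.mem_product, Prod.exists] at hf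
    obtain ⟨⟨x, u, ⟨_, hu⟩, rfl⟩, _⟩ := hf
    rw [Function.update_of_ne (by omega)]
    exact ih u hu i (by omega)

lemma trunc_update {n m : ℕ} (h : m ≤ n) (u : ℕ → ℕ) (x : ℕ) :
    trunc m (Function.update u n x) = trunc m u := by
  funext i
  unfold trunc
  by_cases h1 : i < m
  · rw [if_pos h1, if_pos h1, Function.update_of_ne (by omega)]
  · rw [if_neg h1, if_neg h1]

lemma trunc_self {n : ℕ} {u : ℕ → ℕ} (h : ∀ i, n ≤ i → u i = 0) : trunc n u = u := by
  funext i
  unfold trunc
  by_cases h1 : i < n
  · rw [if_pos h1]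
  · rw [if_neg h1, h i (by omega)]

lemma A_trunc (n : ℕ) : ∀ f ∈ A L b g n, ∀ m, m ≤ n → trunc m f ∈ A L b g m := by
  classical
  induction n with
  | zero =>
    intro f hf m hm
    obtain rfl : m = 0 := by omega
    rw [trunc_self (A_supp L b g 0 f hf)]
    exact hf
  | succ n ih =>
    intro f hf m hm
    rcases Nat.lt_or_ge n m with h | h
    · obtain rfl : m = n + 1 := by omega
      rw [trunc_self (A_supp L b g _ f hf)]
      exact hf
    · simp only [A, Finset.mem_filter, Finset.mem_image, Finset.mem_product, Prod.exists] at hf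
      obtain ⟨⟨x, u, ⟨_, hu⟩, rfl⟩, _⟩ := hf
      rw [trunc_update h]
      exact ih u hu m h

lemma A_lists (n : ℕ) : ∀ f ∈ A L b g n, ∀ i, i < n → f i ∈ L i := by
  classical
  induction n with
  | zero => intro f _ i hi; omega
  | succ n ih =>
    intro f hf i hi
    simp only [A, Finset.mem_filter, Finset.mem_image, Finset.mem_product, Prod.exists] at hf
    obtain ⟨⟨x, u, ⟨hx, hu⟩, rfl⟩, _⟩ := hf
    by_cases h : i = n
    · subst h; rw [Function.update_self]; exact hx
    · rw [Function.update_of_ne h]; exact ih u hu i (by omega)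

lemma A_good (n : ℕ) : ∀ f ∈ A L b g n, ∀ i, i < n → ¬ BadAt b g i f := by
  classical
  intro f hf i hi
  have h1 := A_trunc L b g n f hf (i + 1) (by omega)
  simp only [A, Finset.mem_filter] at h1
  intro h2
  apply h1.2
  obtain ⟨k, hk1, hk2, j, hj, h3⟩ := h2
  refine ⟨k, hk1, hk2, j, hj, ?_⟩
  intro s hs
  rw [trunc_trunc (by omega)]
  rw [← h3 s hs]
  unfold trunc
  rw [if_pos (by omega)]

open Classical in
lemma card_step (n : ℕ) :
    (L n).card * (A L b g n).card ≤ (A L b g (n + 1)).card +
      ∑ k ∈ Finset.range (n + 1), b (k + 1) * (A L b g (n - k)).card := by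
  classical
  set I := (L n ×ˢ A L b g n).image (fun p => Function.update p.2 n p.1) with hI
  have hcard : I.card = (L n).card * (A L b g n).card := by
    rw [hI, Finset.card_image_of_injOn, Finset.card_product]
    intro p hp q hq h
    simp only [Finset.coe_product, Set.mem_prod, Finset.mem_coe] at hp hq
    have e1 : p.1 = q.1 := by
      have := congrFun h n
      simpa using this
    have e2 : p.2 = q.2 := by
      funext i
      by_cases hi : i = n
      · subst hi
        rw [A_supp L b g i p.2 hp.2 i le_rfl, A_supp L b g i q.2 hq.2 i le_rfl]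
      · have := congrFun h i
        simpa [Function.update_of_ne hi] using this
    exact Prod.ext e1 e2
  have hsplit := Finset.card_filter_add_card_filter_not (s := I) (fun f => ¬ BadAt b g n f)
  have hA : I.filter (fun f => ¬ BadAt b g n f) = A L b g (n + 1) := by
    simp only [A]; rfl
  rw [hA] at hsplit
  have hsub : I.filter (fun f => ¬ ¬ BadAt b g n f) ⊆
      (Finset.range (n + 1)).biUnion (fun k => (Finset.range (b (k + 1))).biUnion (fun j =>
        I.filter (fun f => ∀ s, s < k + 1 →
          f (n + 1 - (k + 1) + s) = g n (k + 1) j (trunc (n + 1 - (k + 1)) f) s))) := by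
    intro f hf
    simp only [Finset.mem_filter, not_not] at hf
    obtain ⟨hfI, k, hk1, hk2, j, hj, h3⟩ := hf
    obtain ⟨k, rfl⟩ : ∃ k', k = k' + 1 := ⟨k - 1, by omega⟩
    simp only [Finset.mem_biUnion, Finset.mem_range, Finset.mem_filter]
    exact ⟨k, by omega, j, hj, hfI, h3⟩
  have hb : (I.filter (fun f => ¬ ¬ BadAt b g n f)).card ≤
      ∑ k ∈ Finset.range (n + 1), b (k + 1) * (A L b g (n - k)).card := by
    refine (Finset.card_le_card hsub).trans (Finset.card_biUnion_le.trans ?_)
    refine Finset.sum_le_sum ?_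
    intro k hk
    rw [Finset.mem_range] at hk
    refine Finset.card_biUnion_le.trans ?_
    have : ∀ j ∈ Finset.range (b (k + 1)), (I.filter (fun f => ∀ s, s < k + 1 →
          f (n + 1 - (k + 1) + s) = g n (k + 1) j (trunc (n + 1 - (k + 1)) f) s)).card ≤
          (A L b g (n - k)).card := by
      intro j _
      refine Finset.card_le_card_of_injOn (fun f => trunc (n - k) f) ?_ ?_
      · intro f hf
        simp only [Finset.coe_filter, Set.mem_setOf_eq, hI, Finset.mem_image,
          Finset.mem_product, Prod.exists] at hf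
        obtain ⟨⟨x, u, ⟨_, hu⟩, rfl⟩, _⟩ := hf
        simp only [Finset.mem_coe]
        rw [trunc_update (by omega)]
        exact A_trunc L b g n u hu (n - k) (by omega)
      · intro f hf f' hf' h
        simp only [Finset.coe_filter, Set.mem_setOf_eq, hI, Finset.mem_image,
          Finset.mem_product, Prod.exists] at hf hf'
        obtain ⟨⟨x, u, ⟨_, hu⟩, hfx⟩, h1⟩ := hf
        obtain ⟨⟨x', u', ⟨_, hu'⟩, hfx'⟩, h1'⟩ := hf'
        simp only at h
        have e : n + 1 - (k + 1) = n - k := by omega
        rw [e] at h1 h1'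
        funext i
        rcases Nat.lt_or_ge i (n - k) with hi | hi
        · have := congrFun h i
          unfold trunc at this
          rwa [if_pos hi, if_pos hi] at this
        · rcases Nat.lt_or_ge n i with hi2 | hi2
          · rw [← hfx, ← hfx', Function.update_of_ne (by omega), Function.update_of_ne (by omega),
              A_supp L b g n u hu i (by omega), A_supp L b g n u' hu' i (by omega)]
          · have a1 := h1 (i - (n - k)) (by omega)
            have a2 := h1' (i - (n - k)) (by omega)
            rw [show n - k + (i - (n - k)) = i by omega] at a1 a2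
            rw [a1, a2, h]
    refine (Finset.sum_le_sum this).trans ?_
    rw [Finset.sum_const, Finset.card_range, smul_eq_mul]
  rw [← hcard]
  omega

/-- The counting lemma. -/
theorem exists_word (c β : ℝ) (hβ : 0 < β) (hL : ∀ n, c ≤ ((L n).card : ℝ))
    (hb : ∀ N : ℕ, β + ∑ k ∈ Finset.range N, (b (k + 1) : ℝ) / β ^ k ≤ c) (N : ℕ) :
    ∃ f : ℕ → ℕ, (∀ i, i < N → f i ∈ L i) ∧ ∀ i, i < N → ¬ BadAt b g i f := by
  classical
  have step : ∀ n, β * ((A L b g n).card : ℝ) ≤ ((A L b g (n + 1)).card : ℝ) := by
    intro n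
    induction n using Nat.strong_induction_on with
    | _ n ih =>
      have hpow : ∀ k, k ≤ n → β ^ k * ((A L b g (n - k)).card : ℝ) ≤ ((A L b g n).card : ℝ) := by
        intro k
        induction k with
        | zero => intro _; simp
        | succ k ihk =>
          intro hk
          have h1 := ihk (by omega)
          have h2 := ih (n - (k + 1)) (by omega)
          rw [show n - (k + 1) + 1 = n - k by omega] at h2
          calc β ^ (k + 1) * ((A L b g (n - (k + 1))).card : ℝ)
              = β ^ k * (β * ((A L b g (n - (k + 1))).card : ℝ)) := by ring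
            _ ≤ β ^ k * ((A L b g (n - k)).card : ℝ) :=
                mul_le_mul_of_nonneg_left h2 (by positivity)
            _ ≤ _ := h1
      have h3 : ((L n).card : ℝ) * ((A L b g n).card : ℝ) ≤ ((A L b g (n + 1)).card : ℝ) +
          ∑ k ∈ Finset.range (n + 1), (b (k + 1) : ℝ) * ((A L b g (n - k)).card : ℝ) := by
        have := card_step L b g n
        exact_mod_cast this
      have h4 : ∑ k ∈ Finset.range (n + 1), (b (k + 1) : ℝ) * ((A L b g (n - k)).card : ℝ) ≤
          (∑ k ∈ Finset.range (n + 1), (b (k + 1) : ℝ) / β ^ k) * ((A L b g n).card : ℝ) := by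
        rw [Finset.sum_mul]
        refine Finset.sum_le_sum ?_
        intro k hk
        rw [Finset.mem_range] at hk
        have h5 := hpow k (by omega)
        have h6 : ((A L b g (n - k)).card : ℝ) ≤ ((A L b g n).card : ℝ) / β ^ k := by
          rw [le_div_iff₀ (by positivity)]
          linarith
        calc (b (k + 1) : ℝ) * ((A L b g (n - k)).card : ℝ)
            ≤ (b (k + 1) : ℝ) * (((A L b g n).card : ℝ) / β ^ k) :=
              mul_le_mul_of_nonneg_left h6 (by positivity)
          _ = _ := by ring
      have h7 := hb (n + 1)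
      have h8 : (0 : ℝ) ≤ ((A L b g n).card : ℝ) := by positivity
      nlinarith [hL n, mul_le_mul_of_nonneg_right h7 h8,
        mul_le_mul_of_nonneg_right (hL n) h8]
  have hpos : ∀ n, 0 < ((A L b g n).card : ℝ) := by
    intro n
    induction n with
    | zero => simp [A]
    | succ n ih => exact lt_of_lt_of_le (mul_pos hβ ih) (step n)
  have h1 := hpos N
  have h2 : (A L b g N).Nonempty := by
    rw [← Finset.card_pos]
    exact_mod_cast h1
  obtain ⟨f, hf⟩ := h2
  exact ⟨f, A_lists L b g N f hf, A_good L b g N f hf⟩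

end

end Pool.Agent.Y573.NC
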