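import Pool.Agent.Y573.NC.Runs
set_option autoImplicit false

/-!
The colouring is nonrepetitive.
-/

namespace Pool.Agent.Y573.NC

variable {V : Type}

/-- A repetitively coloured path with `2 t` vertices. -/
structure Rep (G : SimpleGraph V) (c : V → ℕ) (R : ℕ → V) (t : ℕ) : Prop where
  pos : 1 ≤ t
  inj : ∀ i j, i < 2 * t → j < 2 * t → R i = R j → i = j
  adj : ∀ i, i + 1 < 2 * t → G.Adj (R i) (R (i + 1))
  rep : ∀ i, i < t → c (R i) = c (R (i + t))

/-- The reversed path. -/
def rv (R : ℕ → V) (t : ℕ) : ℕ → V := fun i => R (2 * t - 1 - i)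

lemma Rep.rv {G : SimpleGraph V} {c : V → ℕ} {R : ℕ → V} {t : ℕ} (h : Rep G c R t) :
    Rep G c (rv R t) t := by
  have hp := h.pos
  refine ⟨hp, ?_, ?_, ?_⟩
  · intro i j hi hj hij
    have := h.inj _ _ (by omega) (by omega) hij
    omega
  · intro i hi
    have := h.adj (2 * t - 1 - (i + 1)) (by omega)
    rw [show 2 * t - 1 - (i + 1) + 1 = 2 * t - 1 - i by omega] at this
    exact this.symm
  · intro i hi
    have := h.rep (t - 1 - i) (by omega)
    unfold NC.rv
    rw [show 2 * t - 1 - i = t - 1 - i + t by omega,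
      show 2 * t - 1 - (i + t) = t - 1 - i by omega]
    exact this.symm

/-- The part of the path in `S` is the interval `[a, e]`. -/
def MainInt (S : Set V) (R : ℕ → V) (t a e : ℕ) : Prop :=
  a ≤ e ∧ e < 2 * t ∧ ∀ s, s < 2 * t → (R s ∈ S ↔ a ≤ s ∧ s ≤ e)

lemma MainInt.rv {S : Set V} {R : ℕ → V} {t a e : ℕ} (h : MainInt S R t a e) :
    MainInt S (rv R t) t (2 * t - 1 - e) (2 * t - 1 - a) := by
  obtain ⟨h1, h2, h3⟩ := h
  refine ⟨by omega, by omega, ?_⟩
  intro s hs
  have := h3 (2 * t - 1 - s) (by omega)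
  unfold NC.rv
  rw [this]
  omega

section
variable {G : SimpleGraph V} {S0 : Set V} {i0 : V → ℕ} {c : V → ℕ} {R : ℕ → V} {t : ℕ}

lemma leg (hs0 : Spine G S0 i0) (hac : G.IsAcyclic) (hR : Rep G c R t) {e f : ℕ} (hef : e < f)
    (hf : f < 2 * t) (he : R e ∈ S0) (hout : ∀ s, e < s → s ≤ f → R s ∉ S0) :
    anchor G S0 (R f) = R e := by
  induction f, hef using Nat.le_induction with
  | base =>
    exact anchor_adj hs0 hac (hout _ (by omega) (by omega)) he (hR.adj e (by omega)).symm
  | succ f hef ih =>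
    rw [← ih (by omega) (fun s h1 h2 => hout s h1 (by omega))]
    refine (anchor_congr G S0 (SimpleGraph.Adj.reachable ?_)).symm
    exact ⟨hR.adj f (by omega), hout f (by omega) (by omega), hout (f + 1) (by omega) (by omega)⟩

lemma noReturn (hs0 : Spine G S0 i0) (hac : G.IsAcyclic) (hR : Rep G c R t) {e f : ℕ}
    (hef : e + 1 < f) (hf : f < 2 * t) (he : R e ∈ S0) (hf' : R f ∈ S0)
    (hout : ∀ s, e < s → s < f → R s ∉ S0) : False := by
  have h1 := leg hs0 hac hR (e := e) (f := f - 1) (by omega) (by omega) he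
    (fun s h1 h2 => hout s h1 (by omega))
  have h2 := hR.adj (f - 1) (by omega)
  rw [show f - 1 + 1 = f by omega] at h2
  have h3 := anchor_adj hs0 hac (hout (f - 1) (by omega) (by omega)) hf' h2
  rw [h1] at h3
  have := hR.inj e f (by omega) hf h3
  omega

lemma contiguous (hs0 : Spine G S0 i0) (hac : G.IsAcyclic) (hR : Rep G c R t) (n : ℕ) :
    ∀ e f, f = e + n → f < 2 * t → R e ∈ S0 → R f ∈ S0 → ∀ s, e ≤ s → s ≤ f → R s ∈ S0 := by
  induction n using Nat.strong_induction_on with
  | _ n ih =>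
    intro e f hef hf he hf' s h1 h2
    by_contra hs
    have hse : s ≠ e := by rintro rfl; exact hs he
    have hsf : s ≠ f := by rintro rfl; exact hs hf'
    by_cases hex : ∃ u, e < u ∧ u < f ∧ R u ∈ S0
    · obtain ⟨u, hu1, hu2, hu3⟩ := hex
      rcases Nat.lt_or_ge s u with h | h
      · exact hs (ih (u - e) (by omega) e u (by omega) (by omega) he hu3 s h1 (by omega))
      · exact hs (ih (f - u) (by omega) u f (by omega) hf hu3 hf' s h h2)
    · push Not at hex
      exact noReturn hs0 hac hR (by omega) hf he hf' hex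

lemma exists_mainInt (hs0 : Spine G S0 i0) (hac : G.IsAcyclic) (hR : Rep G c R t)
    (hex : ∃ s, s < 2 * t ∧ R s ∈ S0) : ∃ a e, MainInt S0 R t a e := by
  classical
  have h1 : ∃ s, s < 2 * t ∧ R s ∈ S0 := hex
  obtain ⟨s0, hs0', hs0''⟩ := hex
  set a := Nat.find h1 with ha
  have ha' := Nat.find_spec h1
  rw [← ha] at ha'
  set e := Nat.findGreatest (fun s => s < 2 * t ∧ R s ∈ S0) (2 * t) with he
  have he' : e < 2 * t ∧ R e ∈ S0 :=
    Nat.findGreatest_spec (P := fun s => s < 2 * t ∧ R s ∈ S0) (m := s0) (by omega) ⟨hs0', hs0''⟩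
  have hae : a ≤ e := Nat.find_min' h1 he'
  refine ⟨a, e, hae, he'.1, ?_⟩
  intro s hs
  constructor
  · intro hsS
    exact ⟨Nat.find_min' h1 ⟨hs, hsS⟩,
      Nat.le_findGreatest (P := fun s => s < 2 * t ∧ R s ∈ S0) (by omega) ⟨hs, hsS⟩⟩
  · rintro ⟨h2, h3⟩
    exact contiguous hs0 hac hR (e - a) a e (by omega) he'.1 ha'.2 he'.2 s h2 h3

lemma leg_right (hs0 : Spine G S0 i0) (hac : G.IsAcyclic) (hR : Rep G c R t) {a e : ℕ}
    (hM : MainInt S0 R t a e) {s : ℕ} (hes : e < s) (hs : s < 2 * t) :
    anchor G S0 (R s) = R e := by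
  refine leg hs0 hac hR hes hs ((hM.2.2 e hM.2.1).mpr ⟨hM.1, le_rfl⟩) ?_
  intro u h1 h2 h3
  have := (hM.2.2 u (by omega)).mp h3
  omega

lemma leg_left (hs0 : Spine G S0 i0) (hac : G.IsAcyclic) (hR : Rep G c R t) {a e : ℕ}
    (hM : MainInt S0 R t a e) {s : ℕ} (hsa : s < a) :
    anchor G S0 (R s) = R a := by
  have h1 := hM.1
  have h2 := hM.2.1
  have h := leg_right hs0 hac hR.rv hM.rv (s := 2 * t - 1 - s) (by omega) (by omega)
  unfold NC.rv at h
  rwa [show 2 * t - 1 - (2 * t - 1 - s) = s by omega,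
    show 2 * t - 1 - (2 * t - 1 - a) = a by omega] at h

lemma Rep.reach (hR : Rep G c R t) {s : ℕ} (hs : s < 2 * t) : G.Reachable (R 0) (R s) := by
  induction s with
  | zero => exact SimpleGraph.Reachable.refl _
  | succ s ih => exact (ih (by omega)).trans (hR.adj s hs).reachable

end

section
variable {G : SimpleGraph V} {S0 : Set V} {i0 : V → ℕ} {S1 : Set V} {i1 : V → ℕ}
  {c : V → ℕ} {N : ℕ} {f0 : G.ConnectedComponent → ℕ → ℕ}
  {f1 : (restr G S0ᶜ).ConnectedComponent → ℕ → ℕ} {R : ℕ → V} {t : ℕ}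

/-- Interior vertices of a leg are on the second level. -/
lemma interior (hac : G.IsAcyclic) (hs1 : Spine (restr G S0ᶜ) S1 i1)
    (hind : ∀ x y, x ∉ S0 → y ∉ S0 → x ∉ S1 → y ∉ S1 → ¬ G.Adj x y)
    (hR : Rep G c R t) {s : ℕ} (hs : s + 2 < 2 * t) (h0 : R s ∉ S0) (h1 : R (s + 1) ∉ S0)
    (h2 : R (s + 2) ∉ S0) : R (s + 1) ∈ S1 := by
  by_contra hc
  have a1 := hR.adj s (by omega)
  have a2 := hR.adj (s + 1) (by omega)
  have b0 : R s ∈ S1 := by
    by_contra hb
    exact hind _ _ h0 h1 hb hc a1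
  have b2 : R (s + 2) ∈ S1 := by
    by_contra hb
    exact hind _ _ h1 h2 hc hb a2
  have hac1 : (restr G S0ᶜ).IsAcyclic := hac.anti (fun a b h => h.1)
  have := (hs1.unique hac1 hc hc b0 b2 (SimpleGraph.Reachable.refl _)
    ⟨a1.symm, h1, h0⟩ ⟨a2, h1, h2⟩).2
  have := hR.inj s (s + 2) (by omega) (by omega) this
  omega

/-- A long match between the main part and the right leg is impossible. -/
lemma leg_match (hs0 : Spine G S0 i0) (hac : G.IsAcyclic) (hs1 : Spine (restr G S0ᶜ) S1 i1)
    (hind : ∀ x y, x ∉ S0 → y ∉ S0 → x ∉ S1 → y ∉ S1 → ¬ G.Adj x y)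
    (hg : Good G S0 i0 S1 i1 c N f0 f1) (hR : Rep G c R t) {a e : ℕ}
    (hM : MainInt S0 R t a e) (x m : ℕ) (hm : 1 ≤ m) (hx1 : e + 2 ≤ x) (hx2 : x + m + 1 ≤ 2 * t)
    (hx3 : a + t ≤ x) (hx4 : x + m ≤ e + t + 1) (hn : e + 1 ≤ a + 4 * m) : False := by
  obtain ⟨hM1, hM2, hM3⟩ := hM
  have hout : ∀ s, e < s → s < 2 * t → R s ∉ S0 := by
    intro s h1 h2 h3
    have := (hM3 s h2).mp h3
    omega
  have hin : ∀ s, s < m → R (x + s) ∈ S1 := by
    intro s hs
    have := interior hac hs1 hind hR (s := x + s - 1) (by omega) (hout _ (by omega) (by omega))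
      (hout _ (by omega) (by omega)) (hout _ (by omega) (by omega))
    rwa [show x + s - 1 + 1 = x + s by omega] at this
  -- the run in the leg
  have run1 : Run (fun s => i1 (R (x + s))) m := by
    refine hs1.run (fun s => R (x + s)) m hin ?_ ?_
    · intro s hs
      exact ⟨hR.adj (x + s) (by omega), hout _ (by omega) (by omega),
        hout _ (by omega) (by omega)⟩
    · intro s s' h1 h2 h3
      have := hR.inj _ _ (by omega) (by omega) h3
      omega
  -- the run in the main part
  have run0 : Run (fun s => i0 (R (a + s))) (e + 1 - a) := by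
    refine hs0.run (fun s => R (a + s)) (e + 1 - a) ?_ ?_ ?_
    · intro s hs
      exact (hM3 _ (by omega)).mpr (by omega)
    · intro s hs
      exact hR.adj (a + s) (by omega)
    · intro s s' h1 h2 h3
      have := hR.inj _ _ (by omega) (by omega) h3
      omega
  have run0' : Run (fun s => i0 (R (x - t + s))) m := by
    have := run0.shift (x - t - a) m (by omega)
    have e1 : (fun s => i0 (R (x - t + s))) = fun s => i0 (R (a + (x - t - a + s))) := by
      funext s
      rw [show a + (x - t - a + s) = x - t + s by omega]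
    rw [e1]
    exact this
  have hanch : anchor G S0 (R x) = R e :=
    leg_right hs0 hac hR ⟨hM1, hM2, hM3⟩ (by omega) (by omega)
  have hav := hg.av (R x)
  rw [hanch] at hav
  have hreach : ∀ s, s < m → (restr G S0ᶜ).connectedComponentMk (R (x + s)) =
      (restr G S0ᶜ).connectedComponentMk (R x) := by
    intro s
    induction s with
    | zero => intro _; rfl
    | succ s ih =>
      intro hs
      rw [← ih (by omega)]
      refine SimpleGraph.ConnectedComponent.eq.mpr (SimpleGraph.Adj.reachable ?_)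
      exact ⟨(hR.adj (x + s) (by omega)).symm, hout _ (by omega) (by omega),
        hout _ (by omega) (by omega)⟩
  have hcomp : ∀ s, s < 2 * t → G.connectedComponentMk (R s) = G.connectedComponentMk (R e) := by
    intro s hs
    exact SimpleGraph.ConnectedComponent.eq.mpr ((hR.reach hs).symm.trans (hR.reach hM2))
  refine run_word hm hav run0' run1 (fun s _ => hg.b1 _) ?_ ?_
  · intro s hs
    have h1 := run0.dist (s := x - t + s - a) (s' := e - a) (by omega) (by omega)
    rw [show a + (x - t + s - a) = x - t + s by omega, show a + (e - a) = e by omega] at h1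
    omega
  · intro s hs
    have h1 := hR.rep (x - t + s) (by omega)
    rw [show x - t + s + t = x + s by omega] at h1
    rw [hg.c0 _ ((hM3 _ (by omega)).mpr (by omega)),
      hg.c1 _ (hout _ (by omega) (by omega)) (hin s hs), hreach s hs,
      hcomp (x - t + s) (by omega)] at h1
    exact h1.symm

/-- The arithmetic of the long main part. -/
lemma arith (a e t : ℕ) (h1 : a ≤ e) (h2 : e < 2 * t) (h3 : 11 ≤ e - a)
    (h4 : e < a + t ∨ 10 * (e + 1 - a) < 11 * t) :
    (∃ x m, 1 ≤ m ∧ e + 2 ≤ x ∧ x + m + 1 ≤ 2 * t ∧ a + t ≤ x ∧ x + m ≤ e + t + 1 ∧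
      e + 1 ≤ a + 4 * m) ∨
    (∃ x m, 1 ≤ m ∧ 2 * t - 1 - a + 2 ≤ x ∧ x + m + 1 ≤ 2 * t ∧ 2 * t - 1 - e + t ≤ x ∧
      x + m ≤ 2 * t - 1 - a + t + 1 ∧ 2 * t - 1 - a + 1 ≤ 2 * t - 1 - e + 4 * m) := by
  rcases Nat.lt_or_ge e t with c1 | c1
  · left
    exact ⟨a + t + 1, e - a - 1, by omega, by omega, by omega, by omega, by omega, by omega⟩
  · rcases Nat.lt_or_ge a t with c2 | c2
    · rcases Nat.lt_or_ge e (a + t) with c3 | c3
      · rcases Nat.lt_or_ge (t - a - 2) (e - t - 1) with c4 | c4
        · right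
          exact ⟨3 * t - e, e - t - 1, by omega, by omega, by omega, by omega, by omega, by omega⟩
        · left
          exact ⟨a + t + 1, t - a - 2, by omega, by omega, by omega, by omega, by omega, by omega⟩
      · have h5 : 10 * (e + 1 - a) < 11 * t := by omega
        have h6 : 3 * (e + 1 - a) + 8 ≤ 4 * t := by omega
        rcases Nat.lt_or_ge (2 * t - e - 3) (a - 2) with c4 | c4
        · right
          exact ⟨2 * t - a + 1, a - 2, by omega, by omega, by omega, by omega, by omega, by omega⟩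
        · left
          exact ⟨e + 2, 2 * t - e - 3, by omega, by omega, by omega, by omega, by omega, by omega⟩
    · right
      exact ⟨2 * t - 1 - e + t + 1, e - a - 1, by omega, by omega, by omega, by omega, by omega,
        by omega⟩

/-- Paths which meet the first level. -/
theorem case_main (hs0 : Spine G S0 i0) (hac : G.IsAcyclic) (hs1 : Spine (restr G S0ᶜ) S1 i1)
    (hind : ∀ x y, x ∉ S0 → y ∉ S0 → x ∉ S1 → y ∉ S1 → ¬ G.Adj x y)
    (hg : Good G S0 i0 S1 i1 c N f0 f1) (hR : Rep G c R t)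
    (hex : ∃ s, s < 2 * t ∧ R s ∈ S0) : False := by
  obtain ⟨a, e, hM⟩ := exists_mainInt hs0 hac hR hex
  have hM0 := hM
  obtain ⟨hM1, hM2, hM3⟩ := hM
  have htp := hR.pos
  have run0 : Run (fun s => i0 (R (a + s))) (e + 1 - a) := by
    refine hs0.run (fun s => R (a + s)) (e + 1 - a) ?_ ?_ ?_
    · intro s hs
      exact (hM3 _ (by omega)).mpr (by omega)
    · intro s hs
      exact hR.adj (a + s) (by omega)
    · intro s s' h1 h2 h3
      have := hR.inj _ _ (by omega) (by omega) h3
      omega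
  have hcomp : ∀ s s', s < 2 * t → s' < 2 * t →
      G.connectedComponentMk (R s) = G.connectedComponentMk (R s') := by
    intro s s' hs hs'
    exact SimpleGraph.ConnectedComponent.eq.mpr ((hR.reach hs).symm.trans (hR.reach hs'))
  -- robustness of the main part
  have hrob : ∀ k, 1 ≤ k → t ≤ 10 * k → a + t + k ≤ e + 1 → False := by
    intro k hk htk hle
    refine run_robust (hg.r0 (G.connectedComponentMk (R 0))) run0 (fun s _ => hg.b0 _) 0 t k
      htp htk (by omega) ?_
    intro u hu
    have h1 := hR.rep (a + u) (by omega)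
    rw [hg.c0 _ ((hM3 _ (by omega)).mpr (by omega)), hg.c0 _ ((hM3 _ (by omega)).mpr (by omega)),
      hcomp (a + u) 0 (by omega) (by omega), hcomp (a + u + t) 0 (by omega) (by omega)] at h1
    rw [show a + (0 + u) = a + u by omega, show a + (0 + t + u) = a + u + t by omega]
    exact h1
  rcases Nat.lt_or_ge (e - a) 11 with hn | hn
  · -- short main part
    have hca := hg.c0 (R a) ((hM3 a (by omega)).mpr (by omega))
    rcases Nat.lt_or_ge a t with hat | hat
    · rcases Nat.lt_or_ge e (a + t) with h1 | h1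
      · -- partner in the right leg
        have h2 := hR.rep a hat
        have hns : R (a + t) ∉ S0 := by
          intro h3
          have := (hM3 _ (by omega)).mp h3
          omega
        have hanch := leg_right hs0 hac hR hM0 (s := a + t) (by omega) (by omega)
        have h3 := hg.near (R (a + t)) hns (i0 (R a))
        rw [hanch] at h3
        have h4 := run0.dist (s := 0) (s' := e - a) (by omega) (by omega)
        rw [show a + (e - a) = e by omega, show a + 0 = a by omega] at h4
        apply h3 (by omega) (by omega)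
        rw [← h2, hca, hcomp e a (by omega) (by omega)]
      · exact hrob 1 le_rfl (by omega) (by omega)
    · -- partner in the left leg
      have h2 := hR.rep (a - t) (by omega)
      rw [show a - t + t = a by omega] at h2
      have hns : R (a - t) ∉ S0 := by
        intro h3
        have := (hM3 _ (by omega)).mp h3
        omega
      have hanch := leg_left hs0 hac hR hM0 (s := a - t) (by omega)
      have h3 := hg.near (R (a - t)) hns (i0 (R a))
      rw [hanch] at h3
      apply h3 (by omega) (by omega)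
      rw [h2, hca]
  · -- long main part
    have hlen : e < a + t ∨ 10 * (e + 1 - a) < 11 * t := by
      rcases Nat.lt_or_ge e (a + t) with h1 | h1
      · exact Or.inl h1
      · right
        by_contra hc
        exact hrob (e + 1 - a - t) (by omega) (by omega) (by omega)
    -- the right and left matches
    have hright : ∀ x m, 1 ≤ m → e + 2 ≤ x → x + m + 1 ≤ 2 * t → a + t ≤ x →
        x + m ≤ e + t + 1 → e + 1 ≤ a + 4 * m → False :=
      fun x m h1 h2 h3 h4 h5 h6 =>
        leg_match hs0 hac hs1 hind hg hR hM0 x m h1 h2 h3 h4 h5 h6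
    have hleft : ∀ x m, 1 ≤ m → 2 * t - 1 - a + 2 ≤ x → x + m + 1 ≤ 2 * t →
        2 * t - 1 - e + t ≤ x → x + m ≤ 2 * t - 1 - a + t + 1 →
        2 * t - 1 - a + 1 ≤ 2 * t - 1 - e + 4 * m → False :=
      fun x m h1 h2 h3 h4 h5 h6 =>
        leg_match hs0 hac hs1 hind hg hR.rv hM0.rv x m h1 h2 h3 h4 h5 h6
    rcases arith a e t hM1 hM2 hn hlen with ⟨x, m, h1, h2, h3, h4, h5, h6⟩ |
      ⟨x, m, h1, h2, h3, h4, h5, h6⟩
    · exact hright x m h1 h2 h3 h4 h5 h6
    · exact hleft x m h1 h2 h3 h4 h5 h6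

/-- Paths which avoid the first level. -/
theorem case_leaf (hac : G.IsAcyclic) (hs1 : Spine (restr G S0ᶜ) S1 i1)
    (hind : ∀ x y, x ∉ S0 → y ∉ S0 → x ∉ S1 → y ∉ S1 → ¬ G.Adj x y)
    (hg : Good G S0 i0 S1 i1 c N f0 f1) (hR : Rep G c R t)
    (hex : ∀ s, s < 2 * t → R s ∉ S0) : False := by
  have htp := hR.pos
  have hadj : ∀ s, s + 1 < 2 * t → (restr G S0ᶜ).Adj (R s) (R (s + 1)) := fun s hs =>
    ⟨hR.adj s hs, hex _ (by omega), hex _ (by omega)⟩
  have hcomp : ∀ s, s < 2 * t → (restr G S0ᶜ).connectedComponentMk (R s) =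
      (restr G S0ᶜ).connectedComponentMk (R 0) := by
    intro s
    induction s with
    | zero => intro _; rfl
    | succ s ih =>
      intro hs
      rw [← ih (by omega)]
      exact SimpleGraph.ConnectedComponent.eq.mpr (hadj s hs).symm.reachable
  have hint : ∀ s, 1 ≤ s → s + 1 < 2 * t → R s ∈ S1 := by
    intro s h1 h2
    have := interior hac hs1 hind hR (s := s - 1) (by omega) (hex _ (by omega))
      (hex _ (by omega)) (hex _ (by omega))
    rwa [show s - 1 + 1 = s by omega] at this
  -- adjacent or nearby indices have different colours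
  have key : ∀ (x y : V) (d : ℕ), x ∈ S1 → y ∈ S1 → x ∉ S0 → y ∉ S0 →
      (restr G S0ᶜ).connectedComponentMk x = (restr G S0ᶜ).connectedComponentMk y →
      1 ≤ d → d ≤ 10 → i1 y = i1 x + d → c x ≠ c y := by
    intro x y d hx hy hx0 hy0 hxy hd1 hd2 hi hc
    have h1 := hg.b1 y
    obtain ⟨s, hs, hne⟩ := hg.r1 ((restr G S0ᶜ).connectedComponentMk y) d 1 (i1 x) hd1
      (by omega) (by omega)
    obtain rfl : s = 0 := by omega
    apply hne
    rw [hg.c1 x hx0 hx, hg.c1 y hy0 hy, hxy, hi] at hc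
    exact hc
  have key' : ∀ (x y : V) (d : ℕ), x ∈ S1 → y ∈ S1 → x ∉ S0 → y ∉ S0 →
      (restr G S0ᶜ).connectedComponentMk x = (restr G S0ᶜ).connectedComponentMk y →
      1 ≤ d → d ≤ 10 → (i1 y = i1 x + d ∨ i1 x = i1 y + d) → c x ≠ c y := by
    intro x y d hx hy hx0 hy0 hxy hd1 hd2 hi
    rcases hi with hi | hi
    · exact key x y d hx hy hx0 hy0 hxy hd1 hd2 hi
    · exact (key y x d hy hx hy0 hx0 hxy.symm hd1 hd2 hi).symm
  rcases Nat.lt_or_ge t 3 with ht3 | ht3
  · rcases Nat.lt_or_ge t 2 with ht2 | ht2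
    · -- t = 1
      obtain rfl : t = 1 := by omega
      have h0 := hR.rep 0 (by omega)
      rw [show 0 + 1 = 1 by rfl] at h0
      have ha := hadj 0 (by omega)
      rw [show 0 + 1 = 1 by rfl] at ha
      have n0 := hex 0 (by omega)
      have n1 := hex 1 (by omega)
      by_cases s0 : R 0 ∈ S1
      · by_cases s1 : R 1 ∈ S1
        · exact key' (R 0) (R 1) 1 s0 s1 n0 n1 (hcomp 1 (by omega)).symm le_rfl (by omega)
            ((hs1.adj _ _ s0 s1 ha).symm) h0
        · have := hg.leaf (R 1) n1 s1 (R 0) s0 ha.symm (i1 (R 0)) (by omega) (by omega)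
          apply this
          rw [← h0, hg.c1 _ n0 s0, hcomp 1 (by omega)]
      · by_cases s1 : R 1 ∈ S1
        · have := hg.leaf (R 0) n0 s0 (R 1) s1 ha (i1 (R 1)) (by omega) (by omega)
          apply this
          rw [h0, hg.c1 _ n1 s1, hcomp 1 (by omega)]
        · exact hind _ _ n0 n1 s0 s1 ha.1
    · -- t = 2
      obtain rfl : t = 2 := by omega
      have h0 := hR.rep 0 (by omega)
      rw [show 0 + 2 = 2 by rfl] at h0
      have n0 := hex 0 (by omega)
      have n1 := hex 1 (by omega)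
      have n2 := hex 2 (by omega)
      have s1 := hint 1 (by omega) (by omega)
      have s2 := hint 2 (by omega) (by omega)
      have a0 := hadj 0 (by omega)
      have a1 := hadj 1 (by omega)
      rw [show 0 + 1 = 1 by rfl] at a0
      rw [show 1 + 1 = 2 by rfl] at a1
      have d1 := hs1.adj _ _ s1 s2 a1
      by_cases s0 : R 0 ∈ S1
      · have hrun : Run (fun s => i1 (R s)) 3 := by
          refine hs1.run R 3 ?_ ?_ ?_
          · intro s hs
            interval_cases s
            · exact s0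
            · exact s1
            · exact s2
          · intro s hs
            exact hadj s (by omega)
          · intro s s' h1 h2 h3
            exact hR.inj _ _ (by omega) (by omega) h3
        have hd : i1 (R 2) = i1 (R 0) + 2 ∨ i1 (R 0) = i1 (R 2) + 2 := by
          rcases hrun with h | h
          · left
            exact h 2 (by omega)
          · right
            exact (h 2 (by omega)).symm
        exact key' (R 0) (R 2) 2 s0 s2 n0 n2 (hcomp 2 (by omega)).symm (by omega) (by omega)
          hd h0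
      · have := hg.leaf (R 0) n0 s0 (R 1) s1 a0 (i1 (R 2)) (by omega) (by omega)
        apply this
        rw [h0, hg.c1 _ n2 s2, hcomp 2 (by omega)]
  · -- t ≥ 3
    have hrun : Run (fun s => i1 (R (1 + s))) (2 * t - 2) := by
      refine hs1.run (fun s => R (1 + s)) (2 * t - 2) ?_ ?_ ?_
      · intro s hs
        exact hint _ (by omega) (by omega)
      · intro s hs
        exact hadj (1 + s) (by omega)
      · intro s s' h1 h2 h3
        have := hR.inj _ _ (by omega) (by omega) h3
        omega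
    refine run_robust (hg.r1 ((restr G S0ᶜ).connectedComponentMk (R 0))) hrun
      (fun s _ => hg.b1 _) 0 t (t - 2) htp (by omega) (by omega) ?_
    intro u hu
    have h1 := hR.rep (1 + u) (by omega)
    rw [hg.c1 _ (hex _ (by omega)) (hint _ (by omega) (by omega)),
      hg.c1 _ (hex _ (by omega)) (hint _ (by omega) (by omega)),
      hcomp (1 + u) (by omega), hcomp (1 + u + t) (by omega)] at h1
    rw [show 1 + (0 + u) = 1 + u by omega, show 1 + (0 + t + u) = 1 + u + t by omega]
    exact h1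

end

/-- Forests of path-width at most two are nonrepetitively 64-choosable. -/
theorem main [Finite V] (G : SimpleGraph V) (hac : G.IsAcyclic) (B : ℕ → Finset V)
    (hB0 : ∀ i, (B i).card ≤ 3)
    (hB1 : ∀ v, ∃ i, v ∈ B i) (hB2 : ∀ u v, G.Adj u v → ∃ i, u ∈ B i ∧ v ∈ B i)
    (hB3 : ∀ (v : V) (i j k : ℕ), i ≤ j → j ≤ k → v ∈ B i → v ∈ B k → v ∈ B j)
    (L : V → Finset ℕ) (hL : ∀ v, 64 ≤ (L v).card) :
    ∃ c : V → ℕ, (∀ v, c v ∈ L v) ∧ ∀ (R : ℕ → V) (t : ℕ), ¬ Rep G c R t := by
  classical
  obtain ⟨S0, i0, hs0, hb0, hh0⟩ := exists_spineSet G hac B hB1 hB2 hB3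
  have hac1 : (restr G S0ᶜ).IsAcyclic := hac.anti (fun a b h => h.1)
  obtain ⟨S1, i1, hs1, hb1, hh1⟩ := exists_spineSet (restr G S0ᶜ) hac1 B hB1
    (fun u v h => hB2 u v h.1) hB3
  have hind : ∀ x y, x ∉ S0 → y ∉ S0 → x ∉ S1 → y ∉ S1 → ¬ G.Adj x y := by
    intro x y hx0 hy0 hx1 hy1 hxy
    obtain ⟨i, hi1, hi2⟩ := hB2 x y hxy
    obtain ⟨s, hs1', hs2, _⟩ := hh0 i x hi1
    obtain ⟨s', hs1'', hs2', hs3⟩ := hh1 i x hi1
    have hs'0 : s' ∉ S0 := by
      intro h
      -- a vertex of the first level is isolated in the restricted graph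
      obtain ⟨p⟩ := hs3
      cases p with
      | nil => exact hx0 h
      | cons h' _ => exact h'.2.1 h
    have hsub : ({x, y, s, s'} : Finset V) ⊆ B i := by
      intro z hz
      simp only [Finset.mem_insert, Finset.mem_singleton] at hz
      rcases hz with rfl | rfl | rfl | rfl
      · exact hi1
      · exact hi2
      · exact hs2
      · exact hs2'
    have hcard : ({x, y, s, s'} : Finset V).card = 4 := by
      have h1 : x ≠ y := hxy.ne
      have h2 : x ≠ s := by rintro rfl; exact hx0 hs1'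
      have h3 : x ≠ s' := by rintro rfl; exact hx1 hs1''
      have h4 : y ≠ s := by rintro rfl; exact hy0 hs1'
      have h5 : y ≠ s' := by rintro rfl; exact hy1 hs1''
      have h6 : s ≠ s' := by rintro rfl; exact hs'0 hs1'
      rw [Finset.card_insert_of_notMem, Finset.card_insert_of_notMem,
        Finset.card_insert_of_notMem, Finset.card_singleton]
      · simpa using h6
      · simp [h4, h5]
      · simp [h1, h2, h3]
    have := Finset.card_le_card hsub
    have := hB0 i
    omega
  obtain ⟨c, N, f0, f1, hg, hc⟩ := exists_good G hac S0 i0 hs0 S1 i1 hs1 hb0 hb1 L hL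
  refine ⟨c, hc, ?_⟩
  intro R t hR
  by_cases hex : ∃ s, s < 2 * t ∧ R s ∈ S0
  · exact case_main hs0 hac hs1 hind hg hR hex
  · push Not at hex
    exact case_leaf hac hs1 hind hg hR hex

end Pool.Agent.Y573.NC
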