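import Pool.Agent.Y573.NC.Colour
set_option autoImplicit false

/-!
Runs along a spine, and the contradictions obtained from robustness and from forbidden words.
-/

namespace Pool.Agent.Y573.NC

variable {V : Type}

/-- A monotone run of indices of length `n`. -/
def Run (g : ℕ → ℕ) (n : ℕ) : Prop :=
  (∀ s, s < n → g s = g 0 + s) ∨ (∀ s, s < n → g s + s = g 0)

lemma Run.shift {g : ℕ → ℕ} {n : ℕ} (h : Run g n) (a m : ℕ) (ham : a + m ≤ n) :
    Run (fun s => g (a + s)) m := by
  rcases h with h | h
  · left
    intro s hs
    have h1 := h (a + s) (by omega)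
    have h2 := h (a + 0) (by omega)
    simp only
    omega
  · right
    intro s hs
    have h1 := h (a + s) (by omega)
    have h2 := h (a + 0) (by omega)
    simp only
    omega

lemma Run.dist {g : ℕ → ℕ} {n : ℕ} (h : Run g n) {s s' : ℕ} (hs : s ≤ s') (hs' : s' < n) :
    g s ≤ g s' + (s' - s) ∧ g s' ≤ g s + (s' - s) := by
  rcases h with h | h
  · have h1 := h s (by omega)
    have h2 := h s' (by omega)
    omega
  · have h1 := h s (by omega)
    have h2 := h s' (by omega)
    omega

/-- A path inside a system of spines runs monotonically. -/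
theorem Spine.run {H : SimpleGraph V} {S : Set V} {idx : V → ℕ} (hs : Spine H S idx)
    (R : ℕ → V) (n : ℕ) (hS : ∀ s, s < n → R s ∈ S)
    (hadj : ∀ s, s + 1 < n → H.Adj (R s) (R (s + 1)))
    (hinj : ∀ s s', s < n → s' < n → R s = R s' → s = s') : Run (fun s => idx (R s)) n := by
  rcases Nat.lt_or_ge n 2 with hn | hn
  · left
    intro s hs'
    obtain rfl : s = 0 := by omega
    simp
  · induction n, hn using Nat.le_induction with
    | base =>
      rcases hs.adj (R 0) (R 1) (hS 0 (by omega)) (hS 1 (by omega)) (hadj 0 (by omega)) with h | h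
      · right
        intro s hs'
        rcases Nat.eq_zero_or_pos s with h0 | h0
        · subst h0; simp
        · obtain rfl : s = 1 := by omega
          exact h.symm
      · left
        intro s hs'
        rcases Nat.eq_zero_or_pos s with h0 | h0
        · subst h0; simp
        · obtain rfl : s = 1 := by omega
          exact h
    | succ n hn ih =>
      have h := ih (fun s hs' => hS s (by omega)) (fun s hs' => hadj s (by omega))
        (fun s s' h1 h2 h3 => hinj s s' (by omega) (by omega) h3)
      have h2 := hs.adj (R (n - 1)) (R n) (hS _ (by omega)) (hS _ (by omega))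
        (by have := hadj (n - 1) (by omega); rwa [show n - 1 + 1 = n by omega] at this)
      have hr : H.Reachable (R n) (R (n - 2)) := by
        have a1 := hadj (n - 1) (by omega)
        have a2 := hadj (n - 2) (by omega)
        rw [show n - 1 + 1 = n by omega] at a1
        rw [show n - 2 + 1 = n - 1 by omega] at a2
        exact a1.symm.reachable.trans a2.symm.reachable
      have hne : idx (R n) ≠ idx (R (n - 2)) := by
        intro he
        have := hinj n (n - 2) (by omega) (by omega)
          (hs.inj _ _ (hS _ (by omega)) (hS _ (by omega)) hr he)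
        omega
      rcases h with h | h
      · left
        intro s hs'
        rcases Nat.lt_or_ge s n with h3 | h3
        · exact h s h3
        · obtain rfl : s = n := by omega
          have e1 := h (s - 1) (by omega)
          have e2 := h (s - 2) (by omega)
          simp only at *
          omega
      · right
        intro s hs'
        rcases Nat.lt_or_ge s n with h3 | h3
        · exact h s h3
        · obtain rfl : s = n := by omega
          have e1 := h (s - 1) (by omega)
          have e2 := h (s - 2) (by omega)
          simp only at *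
          omega

/-- No repetition inside a run. -/
lemma run_robust {f : ℕ → ℕ} {N : ℕ} (hr : Robust N f) {g : ℕ → ℕ} {n : ℕ} (hg : Run g n)
    (hN : ∀ s, s < n → g s < N) (s t k : ℕ) (ht : 1 ≤ t) (htk : t ≤ 10 * k)
    (hle : s + t + k ≤ n) (heq : ∀ u, u < k → f (g (s + u)) = f (g (s + t + u))) : False := by
  have hk : 1 ≤ k := by omega
  rcases hg with hg | hg
  · have h1 := hN (s + t + (k - 1)) (by omega)
    have h2 := hg (s + t + (k - 1)) (by omega)
    obtain ⟨u, hu, hne⟩ := hr t k (g 0 + s) ht htk (by omega)
    apply hne
    have e1 := hg (s + u) (by omega)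
    have e2 := hg (s + t + u) (by omega)
    have h3 := heq u hu
    rw [e1, e2] at h3
    rw [show g 0 + s + u = g 0 + (s + u) by omega,
      show g 0 + s + t + u = g 0 + (s + t + u) by omega]
    exact h3
  · have h1 := hN 0 (by omega)
    have h2 := hg (s + t + (k - 1)) (by omega)
    obtain ⟨u, hu, hne⟩ := hr t k (g 0 - s - t - (k - 1)) ht htk (by omega)
    apply hne
    have e1 := hg (s + (k - 1 - u)) (by omega)
    have e2 := hg (s + t + (k - 1 - u)) (by omega)
    have h3 := heq (k - 1 - u) (by omega)
    rw [show g 0 - s - t - (k - 1) + u = g (s + t + (k - 1 - u)) by omega,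
      show g 0 - s - t - (k - 1) + t + u = g (s + (k - 1 - u)) by omega]
    exact h3.symm

lemma word_contra {f0 f1 : ℕ → ℕ} {N A m : ℕ} (hm : 1 ≤ m) (hav : Avoids (Wd f0 A) N f1)
    (p q : ℕ) (hq : q + m ≤ N) (hp1 : A ≤ p + 4 * m) (hp2 : p ≤ A + 4 * m)
    (heq : (∀ s, s < m → f1 (q + s) = f0 (p + s)) ∨
      (∀ s, s < m → f1 (q + s) = f0 (p + (m - 1 - s)))) : False := by
  rcases heq with heq | heq
  · obtain ⟨s, hs, hne⟩ := hav m (2 * (p + 4 * m - A)) q hm (by omega) hq
    apply hne
    unfold Wd
    rw [if_pos (by omega), heq s hs]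
    congr 1
    omega
  · obtain ⟨s, hs, hne⟩ := hav m (2 * (p + 4 * m - A) + 1) q hm (by omega) hq
    apply hne
    unfold Wd
    rw [if_neg (by omega), heq s hs]
    congr 1
    omega

/-- No long common factor of a run near the anchor and a run in a leg. -/
lemma run_word {f0 f1 : ℕ → ℕ} {N A m : ℕ} (hm : 1 ≤ m) (hav : Avoids (Wd f0 A) N f1)
    {g0 g1 : ℕ → ℕ} (h0 : Run g0 m) (h1 : Run g1 m) (hN : ∀ s, s < m → g1 s < N)
    (hA : ∀ s, s < m → A ≤ g0 s + 4 * m ∧ g0 s ≤ A + 4 * m)
    (heq : ∀ s, s < m → f1 (g1 s) = f0 (g0 s)) : False := by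
  have a0 := hA 0 (by omega)
  have a1 := hA (m - 1) (by omega)
  have n0 := hN 0 (by omega)
  have n1 := hN (m - 1) (by omega)
  rcases h0 with h0 | h0
  · have b0 := h0 (m - 1) (by omega)
    rcases h1 with h1 | h1
    · have b1 := h1 (m - 1) (by omega)
      refine word_contra hm hav (g0 0) (g1 0) (by omega) (by omega) (by omega) (Or.inl ?_)
      intro s hs
      rw [← h0 s hs, ← h1 s hs]
      exact heq s hs
    · have b1 := h1 (m - 1) (by omega)
      refine word_contra hm hav (g0 0) (g1 (m - 1)) (by omega) (by omega) (by omega) (Or.inr ?_)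
      intro s hs
      have c1 := h1 (m - 1 - s) (by omega)
      rw [← h0 (m - 1 - s) (by omega), show g1 (m - 1) + s = g1 (m - 1 - s) by omega]
      exact heq _ (by omega)
  · have b0 := h0 (m - 1) (by omega)
    rcases h1 with h1 | h1
    · have b1 := h1 (m - 1) (by omega)
      refine word_contra hm hav (g0 (m - 1)) (g1 0) (by omega) (by omega) (by omega) (Or.inr ?_)
      intro s hs
      have c0 := h0 s hs
      rw [← h1 s hs, show g0 (m - 1) + (m - 1 - s) = g0 s by omega]
      exact heq s hs
    · have b1 := h1 (m - 1) (by omega)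
      refine word_contra hm hav (g0 (m - 1)) (g1 (m - 1)) (by omega) (by omega) (by omega)
        (Or.inl ?_)
      intro s hs
      have c0 := h0 (m - 1 - s) (by omega)
      have c1 := h1 (m - 1 - s) (by omega)
      rw [show g1 (m - 1) + s = g1 (m - 1 - s) by omega,
        show g0 (m - 1) + s = g0 (m - 1 - s) by omega]
      exact heq _ (by omega)

end Pool.Agent.Y573.NC
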