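import Pool.Agent.Y573.NC.Count
set_option autoImplicit false

/-!
Colourings of a path from lists of size `43`, robustly nonrepetitive and avoiding given words.
-/

namespace Pool.Agent.Y573.NC

/-- the number of forbidden continuations which determine the last `k` letters -/
def bb (k : ℕ) : ℕ := 16 * k + 12

/-- the forbidden continuations -/
def gg (W : ℕ → ℕ → ℕ → ℕ) (n k j : ℕ) (u : ℕ → ℕ) (s : ℕ) : ℕ :=
  if j < 10 then u (n + 1 - k + s - (10 * (k - 1) + 1 + j)) else W k (j - 10) s

lemma bb_sum (N : ℕ) : (7 : ℝ) + ∑ k ∈ Finset.range N, (bb (k + 1) : ℝ) / 7 ^ k ≤ 43 := by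
  have h : ∑ k ∈ Finset.range N, (bb (k + 1) : ℝ) / 7 ^ k =
      322 / 9 - (56 / 3 * N + 322 / 9) / 7 ^ N := by
    induction N with
    | zero => simp
    | succ n ih =>
      rw [Finset.sum_range_succ, ih]
      unfold bb
      push_cast
      rw [pow_succ]
      field_simp
      ring
  rw [h]
  have : (0 : ℝ) ≤ (56 / 3 * N + 322 / 9) / 7 ^ N := by positivity
  linarith

/-- The robustness of a word of length `N`: two factors of equal length `k` at distance `t` with
`t ≤ 10 k` differ. -/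
def Robust (N : ℕ) (f : ℕ → ℕ) : Prop :=
  ∀ t k i, 1 ≤ t → t ≤ 10 * k → i + t + k ≤ N → ∃ s, s < k ∧ f (i + s) ≠ f (i + t + s)

/-- The word `f` of length `N` has no factor among the words `W m j`, `j < 16 m + 2`. -/
def Avoids (W : ℕ → ℕ → ℕ → ℕ) (N : ℕ) (f : ℕ → ℕ) : Prop :=
  ∀ m j i, 1 ≤ m → j < 16 * m + 2 → i + m ≤ N → ∃ s, s < m ∧ f (i + s) ≠ W m j s

theorem exists_spine (L : ℕ → Finset ℕ) (hL : ∀ n, 43 ≤ (L n).card) (W : ℕ → ℕ → ℕ → ℕ)
    (N : ℕ) : ∃ f : ℕ → ℕ, (∀ i, i < N → f i ∈ L i) ∧ Robust N f ∧ Avoids W N f := by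
  obtain ⟨f, hf1, hf2⟩ := exists_word L bb (gg W) 43 7 (by norm_num)
    (fun n => by exact_mod_cast hL n) bb_sum N
  refine ⟨f, hf1, ?_, ?_⟩
  · intro t k i ht htk hi
    by_contra hcon
    push Not at hcon
    -- the minimal admissible length
    set k0 := (t + 9) / 10 with hk0
    have hk1 : 1 ≤ k0 := by omega
    have hk2 : k0 ≤ k := by omega
    have hk3 : k0 ≤ t := by omega
    refine hf2 (i + t + k0 - 1) (by omega) ⟨k0, hk1, by omega, t - (10 * (k0 - 1) + 1), ?_, ?_⟩
    · unfold bb; omega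
    · intro s hs
      unfold gg trunc
      rw [if_pos (by omega)]
      have e1 : i + t + k0 - 1 + 1 - k0 + s = i + t + s := by omega
      have e2 : i + t + k0 - 1 + 1 - k0 + s - (10 * (k0 - 1) + 1 + (t - (10 * (k0 - 1) + 1))) =
          i + s := by omega
      rw [e2, e1, if_pos (by omega)]
      exact (hcon s (by omega)).symm
  · intro m j i hm hj hi
    by_contra hcon
    push Not at hcon
    refine hf2 (i + m - 1) (by omega) ⟨m, hm, by omega, j + 10, ?_, ?_⟩
    · unfold bb; omega
    · intro s hs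
      unfold gg
      rw [if_neg (by omega)]
      have e1 : i + m - 1 + 1 - m + s = i + s := by omega
      rw [e1, show j + 10 - 10 = j by omega]
      exact hcon s hs

end Pool.Agent.Y573.NC
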